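import Mathlib
import Pool.Agent.H964.LF.Stm

set_option autoImplicit false

namespace Pool.Agent.H357.LF

open Pool.Agent.H964.LF MeasureTheory Set
open scoped ENNReal

/-- the mass of a set of slopes -/
noncomputable def MM {ι : Type} [DecidableEq ι] (s : Finset ι) (f : (ι → ℝ) → ℝ≥0∞) (a b : ι)
    (I : Set ℝ) : ℝ≥0∞ := mg s ({x : ι → ℝ | x a - x b ∈ I}.indicator f) 0

theorem meas_slope {ι : Type} (a b : ι) {I : Set ℝ} (hI : MeasurableSet I) :
    MeasurableSet {x : ι → ℝ | x a - x b ∈ I} :=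
  (((measurable_pi_apply a).sub (measurable_pi_apply b)) : Measurable fun x : ι → ℝ => x a - x b) hI

theorem MM_mid (hP : S_PLM) {ι : Type} [DecidableEq ι] (s : Finset ι) {f : (ι → ℝ) → ℝ≥0∞} {a b : ι}
    (hf : Measurable f) (hc : ∀ x y : ι → ℝ, f x * f y ≤ f (mid x y) ^ 2) {I1 I2 I3 : Set ℝ}
    (h1 : MeasurableSet I1) (h2 : MeasurableSet I2) (h3 : MeasurableSet I3)
    (hI : ∀ u ∈ I1, ∀ v ∈ I2, (u + v) / 2 ∈ I3) :
    MM s f a b I1 * MM s f a b I2 ≤ MM s f a b I3 ^ 2 := by
  have h := hP ι s ({x : ι → ℝ | x a - x b ∈ I1}.indicator f)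
    ({x : ι → ℝ | x a - x b ∈ I2}.indicator f) ({x : ι → ℝ | x a - x b ∈ I3}.indicator f)
    (hf.indicator (meas_slope a b h1)) (hf.indicator (meas_slope a b h2))
    (hf.indicator (meas_slope a b h3)) ?_ 0 0
  · have h0 : mid (0 : ι → ℝ) 0 = 0 := by
      funext v
      simp [mid]
    rw [h0] at h
    exact h
  · intro x y
    by_cases hx : x a - x b ∈ I1
    · by_cases hy : y a - y b ∈ I2
      · have hm : mid x y a - mid x y b ∈ I3 := by
          have := hI _ hx _ hy
          have h4 : mid x y a - mid x y b = ((x a - x b) + (y a - y b)) / 2 := by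
            simp only [mid]
            ring
          rw [h4]
          exact this
        rw [indicator_of_mem (show x ∈ {x : ι → ℝ | x a - x b ∈ I1} from hx),
          indicator_of_mem (show y ∈ {x : ι → ℝ | x a - x b ∈ I2} from hy),
          indicator_of_mem (show mid x y ∈ {x : ι → ℝ | x a - x b ∈ I3} from hm)]
        exact hc x y
      · rw [indicator_of_notMem (show y ∉ {x : ι → ℝ | x a - x b ∈ I2} from hy), mul_zero]
        exact zero_le
    · rw [indicator_of_notMem (show x ∉ {x : ι → ℝ | x a - x b ∈ I1} from hx), zero_mul]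
      exact zero_le

/-- symmetry -/
theorem MM_neg {ι : Type} [DecidableEq ι] (s : Finset ι) {f : (ι → ℝ) → ℝ≥0∞} {a b : ι}
    (he : ∀ x, f (-x) = f x) {I I' : Set ℝ} (hI : ∀ u, u ∈ I' ↔ -u ∈ I) :
    MM s f a b I' = MM s f a b I := by
  unfold MM mg lmarginal
  rw [← lintegral_neg_eq_self]
  refine lintegral_congr (fun y => ?_)
  have h0 : Function.updateFinset (0 : ι → ℝ) s (-y) = -Function.updateFinset (0 : ι → ℝ) s y := by
    funext i
    simp only [Function.updateFinset, Pi.neg_apply]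
    split_ifs <;> simp
  rw [h0]
  set z := Function.updateFinset (0 : ι → ℝ) s y
  have h1 : (-z ∈ {x : ι → ℝ | x a - x b ∈ I'}) ↔ (z ∈ {x : ι → ℝ | x a - x b ∈ I}) := by
    show (-z) a - (-z) b ∈ I' ↔ z a - z b ∈ I
    rw [hI, Pi.neg_apply, Pi.neg_apply]
    have : -(-z a - -z b) = z a - z b := by ring
    rw [this]
  by_cases hz : z ∈ {x : ι → ℝ | x a - x b ∈ I}
  · rw [indicator_of_mem hz, indicator_of_mem (h1.2 hz), he]
  · rw [indicator_of_notMem hz, indicator_of_notMem (fun h => hz (h1.1 h))]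

theorem sq_le {x y : ℝ≥0∞} (h : x * x ≤ y ^ 2) : x ≤ y := by
  by_contra hcon
  push Not at hcon
  have := ENNReal.mul_lt_mul hcon hcon
  rw [← sq] at this
  exact absurd h (not_le.2 this)

/-- the translate -/
def TT (r : ℝ) (j k : ℕ) : Set ℝ :=
  Icc (2 - r - j * ((4 - r) / 2 ^ k)) (2 - j * ((4 - r) / 2 ^ k))

theorem MM_translate (hP : S_PLM) {ι : Type} [DecidableEq ι] (s : Finset ι)
    {f : (ι → ℝ) → ℝ≥0∞} {a b : ι}
    (hf : Measurable f) (hc : ∀ x y : ι → ℝ, f x * f y ≤ f (mid x y) ^ 2)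
    (he : ∀ x, f (-x) = f x) (r : ℝ) (k : ℕ) :
    ∀ j ≤ 2 ^ k, MM s f a b (Icc (2 - r) 2) ≤ MM s f a b (TT r j k) := by
  induction k with
  | zero =>
    intro j hj
    rw [pow_zero] at hj
    interval_cases j
    · refine le_of_eq ?_
      congr 1
      unfold TT
      simp
    · refine le_of_eq (MM_neg s he ?_)
      intro u
      unfold TT
      simp only [mem_Icc, Nat.cast_one, pow_zero]
      constructor <;> rintro ⟨h1, h2⟩ <;> constructor <;> linarith
  | succ k ih =>
    intro j hj
    have h2k : (2 : ℝ) ^ (k + 1) = 2 ^ k * 2 := pow_succ _ _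
    have h2p : (0 : ℝ) < 2 ^ k := by positivity
    rcases Nat.even_or_odd' j with ⟨i, rfl | rfl⟩
    · have h1 : TT r (2 * i) (k + 1) = TT r i k := by
        unfold TT
        have : ((2 * i : ℕ) : ℝ) * ((4 - r) / 2 ^ (k + 1)) = i * ((4 - r) / 2 ^ k) := by
          rw [h2k]
          push_cast
          field_simp
        rw [this]
      rw [h1]
      exact ih i (by rw [pow_succ] at hj; omega)
    · have hi : i + 1 ≤ 2 ^ k := by rw [pow_succ] at hj; omega
      have h1 := MM_mid hP s (a := a) (b := b) hf hc (I1 := TT r i k) (I2 := TT r (i + 1) k)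
        (I3 := TT r (2 * i + 1) (k + 1)) measurableSet_Icc measurableSet_Icc measurableSet_Icc ?_
      · exact sq_le ((mul_le_mul' (ih i (by omega)) (ih (i + 1) hi)).trans h1)
      · intro u hu v hv
        unfold TT at hu hv ⊢
        rw [mem_Icc] at hu hv ⊢
        have h3 : (4 - r) / 2 ^ (k + 1) = (4 - r) / 2 ^ k / 2 := by
          rw [h2k]
          field_simp
        rw [h3]
        set c := (4 - r) / 2 ^ k
        push_cast at hu hv ⊢
        constructor <;> nlinarith [hu.1, hu.2, hv.1, hv.2]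

theorem MM_add_le {ι : Type} [DecidableEq ι] (s : Finset ι) {f : (ι → ℝ) → ℝ≥0∞} {a b : ι}
    (hf : Measurable f) (n : ℕ) (I : ℕ → Set ℝ) (hI : ∀ j, MeasurableSet (I j))
    (hd : ∀ i j, i ≠ j → Disjoint (I i) (I j)) :
    ∑ j ∈ Finset.range n, MM s f a b (I j) ≤ mg s f 0 := by
  have h1 : ∑ j ∈ Finset.range n, MM s f a b (I j) =
      mg s (fun x => ∑ j ∈ Finset.range n, {x : ι → ℝ | x a - x b ∈ I j}.indicator f x) 0 := by
    unfold MM mg lmarginal
    rw [lintegral_finsetSum]
    intro j _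
    exact (hf.indicator (meas_slope a b (hI j))).comp measurable_updateFinset
  rw [h1]
  unfold mg lmarginal
  refine lintegral_mono (fun y => ?_)
  set z := Function.updateFinset (0 : ι → ℝ) s y
  show ∑ j ∈ Finset.range n, {x : ι → ℝ | x a - x b ∈ I j}.indicator f z ≤ f z
  by_cases hz : ∃ j ∈ Finset.range n, z a - z b ∈ I j
  · obtain ⟨j, hj, hzj⟩ := hz
    rw [Finset.sum_eq_single_of_mem j hj]
    · exact indicator_le_self _ _ _
    · intro i _ hij
      refine indicator_of_notMem ?_ _
      intro hi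
      exact Set.disjoint_left.1 (hd i j hij) hi hzj
  · push Not at hz
    rw [Finset.sum_eq_zero]
    · exact zero_le
    · intro j hj
      exact indicator_of_notMem (show z ∉ {x : ι → ℝ | x a - x b ∈ I j} from hz j hj) _

theorem t_ENDP : S_PLM → S_ENDP := by
  intro hP ι _ s f a b r hf hc he ha hb hab hsup hr hr1
  obtain ⟨m, hm1, hm2⟩ := exists_nat_pow_near (x := 2 / r) (y := (2 : ℝ))
    (by rw [le_div_iff₀ hr]; linarith) (by norm_num)
  set I : Set ℝ := Icc (2 - r) 2 with hI
  have h2m : (0 : ℝ) < 2 ^ m := by positivity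
  -- the step
  have hstep : r < (4 - r) / 2 ^ m := by
    rw [lt_div_iff₀ h2m]
    have h1 : r * 2 ^ m ≤ 2 := by
      have := mul_le_mul_of_nonneg_left hm1 hr.le
      have h3 : r * (2 / r) = 2 := by field_simp
      linarith
    linarith
  have hdis : ∀ i j, i ≠ j → Disjoint (TT r i m) (TT r j m) := by
    have key : ∀ i j : ℕ, i < j → Disjoint (TT r i m) (TT r j m) := by
      intro i j hij
      rw [Set.disjoint_left]
      intro u hu hv
      unfold TT at hu hv
      rw [mem_Icc] at hu hv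
      have h1 : (i : ℝ) + 1 ≤ j := by exact_mod_cast hij
      have h2 : 0 < (4 - r) / 2 ^ m := hr.trans hstep
      have h3 := mul_le_mul_of_nonneg_right h1 h2.le
      nlinarith [hu.1, hv.2]
    intro i j hij
    rcases lt_or_gt_of_ne hij with h | h
    · exact key i j h
    · exact (key j i h).symm
  have hsum := MM_add_le s (a := a) (b := b) hf (2 ^ m + 1) (fun j => TT r j m)
    (fun _ => measurableSet_Icc) hdis
  have htr := MM_translate hP s (a := a) (b := b) hf hc he r m
  have hcard : ((2 ^ m + 1 : ℕ) : ℝ≥0∞) * MM s f a b I ≤ mg s f 0 := by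
    refine le_trans ?_ hsum
    calc ((2 ^ m + 1 : ℕ) : ℝ≥0∞) * MM s f a b I = ∑ _j ∈ Finset.range (2 ^ m + 1), MM s f a b I := by
          rw [Finset.sum_const, Finset.card_range, nsmul_eq_mul]
      _ ≤ _ := Finset.sum_le_sum (fun j hj => htr j (by
          have := Finset.mem_range.1 hj
          omega))
  -- the event
  have hev : mg s ({x : ι → ℝ | 2 - r ≤ |x a - x b|}.indicator f) 0 ≤
      MM s f a b I + MM s f a b (Icc (-2) (-(2 - r))) := by
    unfold MM mg lmarginal
    rw [← lintegral_add_left]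
    · refine lintegral_mono (fun y => ?_)
      set z := Function.updateFinset (0 : ι → ℝ) s y
      show ({x : ι → ℝ | 2 - r ≤ |x a - x b|}.indicator f) z ≤
        ({x : ι → ℝ | x a - x b ∈ I}.indicator f) z +
        ({x : ι → ℝ | x a - x b ∈ Icc (-2) (-(2 - r))}.indicator f) z
      by_cases hz : z ∈ {x : ι → ℝ | 2 - r ≤ |x a - x b|}
      · rw [indicator_of_mem hz]
        by_cases hfz : f z = 0
        · rw [hfz]
          exact zero_le
        · have h1 := hsup z hfz
          have h2 : 2 - r ≤ |z a - z b| := hz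
          rcases le_total 0 (z a - z b) with h | h
          · rw [abs_of_nonneg h] at h1 h2
            rw [indicator_of_mem (show z ∈ {x : ι → ℝ | x a - x b ∈ I} from ⟨h2, h1⟩)]
            exact le_self_add
          · rw [abs_of_nonpos h] at h1 h2
            rw [indicator_of_mem (show z ∈ {x : ι → ℝ | x a - x b ∈ Icc (-2) (-(2 - r))} from
              ⟨by linarith, by linarith⟩)]
            exact le_add_self
      · rw [indicator_of_notMem hz]
        exact zero_le
    · exact (hf.indicator (meas_slope a b measurableSet_Icc)).comp measurable_updateFinset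
  have hneg : MM s f a b (Icc (-2) (-(2 - r))) = MM s f a b I := by
    refine MM_neg s he ?_
    intro u
    rw [hI, mem_Icc, mem_Icc]
    constructor <;> rintro ⟨h1, h2⟩ <;> constructor <;> linarith
  rw [hneg] at hev
  -- the factor
  have hfac : (1 : ℝ≥0∞) ≤ ENNReal.ofReal r * ((2 ^ m + 1 : ℕ) : ℝ≥0∞) := by
    rw [← ENNReal.ofReal_natCast, ← ENNReal.ofReal_mul hr.le, ← ENNReal.ofReal_one]
    refine ENNReal.ofReal_le_ofReal ?_
    push_cast
    rw [pow_succ] at hm2
    have h1 := mul_lt_mul_of_pos_left hm2 hr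
    have h3 : r * (2 / r) = 2 := by field_simp
    nlinarith
  calc mg s ({x : ι → ℝ | 2 - r ≤ |x a - x b|}.indicator f) 0 ≤ 2 * MM s f a b I := by
        rw [two_mul]; exact hev
    _ = 2 * (1 * MM s f a b I) := by rw [one_mul]
    _ ≤ 2 * ((ENNReal.ofReal r * ((2 ^ m + 1 : ℕ) : ℝ≥0∞)) * MM s f a b I) :=
        mul_le_mul_right (mul_le_mul_left hfac _) _
    _ = ENNReal.ofReal (2 * r) * (((2 ^ m + 1 : ℕ) : ℝ≥0∞) * MM s f a b I) := by
        rw [ENNReal.ofReal_mul (by norm_num), ENNReal.ofReal_ofNat]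
        ring
    _ ≤ ENNReal.ofReal (2 * r) * mg s f 0 := mul_le_mul_right hcard _

end Pool.Agent.H357.LF
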